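import Pool.Agent.TH381.RM3.Conv
import Pool.Agent.TH304.RM2.Fin
import Pool.Agent.TH381.Dg.Blocks

/-!
CONV: the states at the beginnings of the rows are generated in the space of the word
(job RM3-CONV).
-/

set_option autoImplicit false

namespace Pool.Agent.TH412.RM3

open Pool.Agent.H584R2.Dg Pool.Agent.W614.Dg Pool.Agent.H539R2 Pool.Agent.TH381.RM
  Pool.Agent.TH381.RM2 Pool.Agent.TH381.RM3 Pool.Agent.TH304.RM2

/-! ### Coded quintuples -/

/-- five numbers -/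
def z5 (X p L b q : ℕ) : ℕ := Nat.pair X (Nat.pair p (Nat.pair L (Nat.pair b q)))

def px (z : ℕ) : ℕ := (Nat.unpair z).1
def pp (z : ℕ) : ℕ := (Nat.unpair (Nat.unpair z).2).1
def pL (z : ℕ) : ℕ := (Nat.unpair (Nat.unpair (Nat.unpair z).2).2).1
def pb (z : ℕ) : ℕ := (Nat.unpair (Nat.unpair (Nat.unpair (Nat.unpair z).2).2).2).1
def pq (z : ℕ) : ℕ := (Nat.unpair (Nat.unpair (Nat.unpair (Nat.unpair z).2).2).2).2

theorem px_z5 (X p L b q : ℕ) : px (z5 X p L b q) = X := by simp [px, z5]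
theorem pp_z5 (X p L b q : ℕ) : pp (z5 X p L b q) = p := by simp [pp, z5]
theorem pL_z5 (X p L b q : ℕ) : pL (z5 X p L b q) = L := by simp [pL, z5]
theorem pb_z5 (X p L b q : ℕ) : pb (z5 X p L b q) = b := by simp [pb, z5]
theorem pq_z5 (X p L b q : ℕ) : pq (z5 X p L b q) = q := by simp [pq, z5]

theorem LS_z5 {X p L b q : (ℕ → ℕ) → ℕ} (h1 : LS X) (h2 : LS p) (h3 : LS L) (h4 : LS b)
    (h5 : LS q) : LS (fun ρ => z5 (X ρ) (p ρ) (L ρ) (b ρ) (q ρ)) :=
  LS.pair h1 (LS.pair h2 (LS.pair h3 (LS.pair h4 h5)))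

theorem LS_px : LS (fun ρ => px (ρ 0)) := LS.unpair1 (LS.var 0)
theorem LS_pp : LS (fun ρ => pp (ρ 0)) := LS.unpair1 (LS.unpair2 (LS.var 0))
theorem LS_pL : LS (fun ρ => pL (ρ 0)) := LS.unpair1 (LS.unpair2 (LS.unpair2 (LS.var 0)))
theorem LS_pb : LS (fun ρ => pb (ρ 0)) :=
  LS.unpair1 (LS.unpair2 (LS.unpair2 (LS.unpair2 (LS.var 0))))
theorem LS_pq : LS (fun ρ => pq (ρ 0)) :=
  LS.unpair2 (LS.unpair2 (LS.unpair2 (LS.unpair2 (LS.var 0))))

theorem pair_lt_sq {x y Y : ℕ} (hx : x + 1 ≤ Y) (hy : y + 1 ≤ Y) :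
    Nat.pair x y + 1 ≤ Y ^ 2 := by
  have h1 := Nat.pair_lt_max_add_one_sq x y
  have h2 : (max x y + 1) ^ 2 ≤ Y ^ 2 := by
    apply Nat.pow_le_pow_left
    omega
  omega

theorem z5_le {X p L b q Y : ℕ} (h1 : X + 1 ≤ Y) (h2 : p + 1 ≤ Y) (h3 : L + 1 ≤ Y)
    (h4 : b + 1 ≤ Y) (h5 : q + 1 ≤ Y) (hY : 2 ≤ Y) : z5 X p L b q + 2 ≤ Y ^ 17 := by
  have e1 : Y ≤ Y ^ 2 := Nat.le_self_pow (by norm_num) Y
  have e2 : Y ≤ Y ^ 4 := Nat.le_self_pow (by norm_num) Y
  have e3 : Y ≤ Y ^ 8 := Nat.le_self_pow (by norm_num) Y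
  have a1 : Nat.pair b q + 1 ≤ Y ^ 2 := pair_lt_sq h4 h5
  have a2 : Nat.pair L (Nat.pair b q) + 1 ≤ Y ^ 4 := by
    have := pair_lt_sq (h3.trans e1) a1
    rwa [← pow_mul] at this
  have a3 : Nat.pair p (Nat.pair L (Nat.pair b q)) + 1 ≤ Y ^ 8 := by
    have := pair_lt_sq (h2.trans e2) a2
    rwa [← pow_mul] at this
  have a4 : z5 X p L b q + 1 ≤ Y ^ 16 := by
    have := pair_lt_sq (h1.trans e3) a3
    rwa [← pow_mul] at this
  have a5 : 1 ≤ Y ^ 16 := Nat.one_le_pow _ _ (by omega)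
  calc z5 X p L b q + 2 ≤ Y ^ 16 * 2 := by omega
    _ ≤ Y ^ 16 * Y := Nat.mul_le_mul_left _ hY
    _ = Y ^ 17 := by ring

/-! ### Tables -/

/-- a finite table -/
def tabf (f : ℕ → ℕ) (N i : ℕ) : ℕ := if i < N then f i else 0

theorem LS_tab (f : ℕ → ℕ) (N : ℕ) : LS (fun ρ => tabf f N (ρ 0)) := by
  induction N with
  | zero => exact LS.zero.congr (fun ρ => by simp [tabf])
  | succ N ih =>
    have := LS.ite (LSP.eq (LS.var 0) (LS.const N)) (LS.const (f N)) ih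
    apply this.congr
    intro ρ
    unfold tabf
    by_cases h : ρ 0 = N
    · simp [h]
    · by_cases h2 : ρ 0 < N
      · rw [if_neg h, if_pos h2, if_pos (by omega)]
      · rw [if_neg h, if_neg h2, if_neg (by omega)]

/-- codings of finite sets -/
theorem exists_coding (Q : Type) [Finite Q] [Nonempty Q] :
    ∃ (n : ℕ) (c : Q → ℕ) (d : ℕ → Q), (∀ q, c q < n) ∧ ∀ q, d (c q) = q := by
  obtain ⟨n, ⟨eq⟩⟩ := Finite.exists_equiv_fin Q
  refine ⟨n, fun q => (eq q : ℕ), fun i => if h : i < n then eq.symm ⟨i, h⟩ else Classical.arbitrary Q,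
    fun q => (eq q).2, ?_⟩
  intro q
  simp

/-! ### The step -/

/-- one step -/
def FF (c : ℕ) (sg : ℕ → ℕ → ℕ) (nx ol : ℕ → ℕ) (z : ℕ) : ℕ :=
  z5 (powT (px z ^ 4) (48 * (1 * cbr (pp z + 1)) + 24) (c * (1 * cbr (pp z + 1)))) (pp z + 1)
    (pL z + ol (Nat.pair (pq z) (sg (px z) (pp z))))
    (if pp z = pb z then pL z else pb z)
    (nx (Nat.pair (pq z) (sg (px z) (pp z))))

/-- the letter -/
def LL (n : ℕ) (z : ℕ) : ℕ := if pp z = pb z then min (pq z + 1) n else 0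

theorem LS_FF (c : ℕ) {sg : ℕ → ℕ → ℕ} {nx ol : ℕ → ℕ} (hs : LS (fun ρ => sg (ρ 0) (ρ 1)))
    (hn : LS (fun ρ => nx (ρ 0))) (ho : LS (fun ρ => ol (ρ 0))) :
    LS (fun ρ => FF c sg nx ol (ρ 0)) := by
  have hx : LS (fun ρ => sg (px (ρ 0)) (pp (ρ 0))) := LS.comp2 hs LS_px LS_pp
  have hi : LS (fun ρ => Nat.pair (pq (ρ 0)) (sg (px (ρ 0)) (pp (ρ 0)))) := LS.pair LS_pq hx
  have h3 := (LS.const 1).mul (LS_cbr LS_pp.succ)
  exact LS_z5 (LS.powT (ZZ.LS.powc LS_px 4) (((LS.const 48).mul h3).add (LS.const 24))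
      ((LS.const c).mul h3)) LS_pp.succ (LS_pL.add (LS.comp1 ho hi))
    (LS.ite (LSP.eq LS_pp LS_pb) LS_pL LS_pb) (LS.comp1 hn hi)

theorem LS_LL (n : ℕ) : LS (fun ρ => LL n (ρ 0)) :=
  LS.ite (LSP.eq LS_pp LS_pb) (LS.min LS_pq.succ (LS.const n)) LS.zero

/-! ### The levels -/

/-- number of the boundaries `N l ≤ t` -/
def lvl (N : ℕ → ℕ) : ℕ → ℕ
  | 0 => 0
  | t + 1 => if t + 1 = N (lvl N t) then lvl N t + 1 else lvl N t

theorem lvl_spec {N : ℕ → ℕ} (h0 : N 0 = 1) (hN : StrictMono N) (t : ℕ) :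
    t + 1 ≤ N (lvl N t) ∧ ∀ l < lvl N t, N l ≤ t := by
  induction t with
  | zero => simp [lvl, h0]
  | succ t ih =>
    obtain ⟨h1, h2⟩ := ih
    simp only [lvl]
    split_ifs with h
    · constructor
      · have := hN (Nat.lt_succ_self (lvl N t))
        simp only [Nat.succ_eq_add_one] at this
        omega
      · intro l hl
        have := hN.monotone (Nat.lt_succ_iff.1 hl)
        omega
    · constructor
      · omega
      · intro l hl
        have := h2 l hl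
        omega

theorem outs {Q : Type} {N : ℕ → ℕ} (v : ℕ → Q) (g : ℕ → Option Q)
    (hg : ∀ t, g t = if t + 1 = N (lvl N t) then some (v (lvl N t)) else none) (T : ℕ) :
    (List.range T).filterMap g = (List.range (lvl N T)).map v := by
  induction T with
  | zero => simp [lvl]
  | succ T ih =>
    rw [List.range_succ, List.filterMap_append, ih]
    simp only [lvl]
    split_ifs with h
    · rw [List.range_succ, List.map_append]
      congr 1
      simp [hg, h.symm]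
    · simp [hg, h]

/-! ### Real estimates -/

theorem logX_ge {c : ℕ} {A C : ℝ} (hA : 0 ≤ A) (hC : 0 ≤ C) (hc : 3 * (A * (C + 1)) ≤ c) (p : ℕ) :
    A * (C * (((p + 1 : ℕ) : ℝ) ^ (1 / 3 : ℝ) * (Real.log ((p + 1 : ℕ) : ℝ) + 1)) +
      Real.log ((p : ℝ) + 1) + 1) ≤ Real.log (XX c 1 p) := by
  obtain ⟨r, hr0, hr1, hr3, -⟩ := cbrt_facts (n := p + 1) (by omega)
  rw [← hr0]
  obtain ⟨B, hB⟩ : ∃ B, B = TH304.RM2.BB 1 p := ⟨_, rfl⟩
  have hB3 : r ^ 3 ≤ (B : ℝ) ^ 3 := by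
    rw [hr3]
    have h1 : p + 1 ≤ B ^ 3 := by
      rw [hB]
      unfold TH304.RM2.BB
      rw [one_mul]
      exact lt_cbr p
    exact_mod_cast h1
  have hrB : r ≤ B := le_of_pow_le_pow_left₀ (by norm_num) (Nat.cast_nonneg B) hB3
  have h3 : Real.log (XX c 1 p : ℝ) = c * B * Real.log (48 * (B : ℝ) + 24) := by
    unfold TH304.RM2.XX
    rw [← hB]
    push_cast
    rw [Real.log_pow]
    push_cast
    ring
  have hlr : 3 * Real.log r = Real.log ((p : ℝ) + 1) := by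
    have h4 : Real.log (r ^ 3) = 3 * Real.log r := by
      rw [Real.log_pow]
      norm_num
    rw [← h4, hr3]
    push_cast
    rfl
  have hlr0 : 0 ≤ Real.log r := Real.log_nonneg hr1
  have h5 : 1 + Real.log r ≤ Real.log (48 * (B : ℝ) + 24) := by
    have h6 : 1 + Real.log r = Real.log (Real.exp 1 * r) := by
      rw [Real.log_mul (Real.exp_pos 1).ne' (by linarith), Real.log_exp]
    rw [h6]
    apply Real.log_le_log (mul_pos (Real.exp_pos 1) (by linarith))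
    have h7 : Real.exp 1 ≤ 48 := by
      have := Real.exp_one_lt_d9
      linarith
    nlinarith
  rw [h3]
  push_cast
  rw [← hlr]
  obtain ⟨g, hg⟩ : ∃ g, g = Real.log r := ⟨_, rfl⟩
  rw [← hg] at hlr0 h5 ⊢
  have h8 : A * (C * (r * (3 * g + 1)) + 3 * g + 1) ≤ A * (C + 1) * (r * (3 * g + 1)) := by
    have h9 : 3 * g + 1 ≤ r * (3 * g + 1) := by nlinarith
    have h10 := mul_le_mul_of_nonneg_left h9 hA
    nlinarith
  have h11 : A * (C + 1) * (r * (3 * g + 1)) ≤ (c : ℝ) * (r * (1 + g)) := by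
    have h12 : r * (3 * g + 1) ≤ 3 * (r * (1 + g)) := by nlinarith
    have h13 : 0 ≤ A * (C + 1) := mul_nonneg hA (by linarith)
    have h14 : 0 ≤ r * (1 + g) := mul_nonneg (by linarith) (by linarith)
    calc A * (C + 1) * (r * (3 * g + 1)) ≤ A * (C + 1) * (3 * (r * (1 + g))) :=
          mul_le_mul_of_nonneg_left h12 h13
      _ = (3 * (A * (C + 1))) * (r * (1 + g)) := by ring
      _ ≤ _ := mul_le_mul_of_nonneg_right hc h14
  have h15 : (c : ℝ) * (r * (1 + g)) ≤ c * B * Real.log (48 * (B : ℝ) + 24) := by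
    rw [mul_assoc]
    apply mul_le_mul_of_nonneg_left _ (Nat.cast_nonneg c)
    exact mul_le_mul hrB h5 (by linarith) (Nat.cast_nonneg B)
  linarith

theorem rs_ge {R : ℕ} (hR : 1 ≤ R) : 1 ≤ (R : ℝ) ^ (1 / 3 : ℝ) * (Real.log R + 1) := by
  have hR' : (1 : ℝ) ≤ R := by exact_mod_cast hR
  have h1 : 1 ≤ (R : ℝ) ^ (1 / 3 : ℝ) := Real.one_le_rpow hR' (by norm_num)
  have h2 : 0 ≤ Real.log R := Real.log_nonneg hR'
  nlinarith

/-- the constant in the space bound -/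
noncomputable def SC (c K nQ : ℕ) : ℝ :=
  17 * (Real.log ((K + nQ + 2 : ℕ) : ℝ) + 6 * c * (1 : ℕ) * (Real.log (120 * (1 : ℕ)) + 1))

theorem space5 {c K nQ : ℕ} (hc : 1 ≤ c) {R p : ℕ} (hR : 1 ≤ R) (hp : p ≤ R) {L b q : ℕ}
    (hL : L ≤ K * p) (hb : b ≤ (K + 1) * p) (hq : q < nQ) :
    Real.log ((z5 (XX c 1 p) p L b q : ℕ) + 2) ≤
      SC c K nQ * ((R : ℝ) ^ (1 / 3 : ℝ) * (Real.log R + 1)) := by
  have h1 := space (c := c) (d := 1) hc le_rfl hR hp
  have h2 := rs_ge hR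
  obtain ⟨X, hX⟩ : ∃ X, X = XX c 1 p := ⟨_, rfl⟩
  have hpX : p ≤ X := by rw [hX]; exact lt_XX hc le_rfl p
  have hX24 : 24 ≤ X := by rw [hX]; exact XX_ge hc le_rfl p
  rw [← hX] at h1 ⊢
  have hX' : (24 : ℝ) ≤ X := by exact_mod_cast hX24
  have h3 : Real.log X ≤ Real.log ((Nat.pair p X : ℕ) + 2) := by
    apply Real.log_le_log (by linarith)
    have : (X : ℝ) ≤ (Nat.pair p X : ℕ) := by exact_mod_cast Nat.right_le_pair p X
    linarith
  have h4 : z5 X p L b q + 2 ≤ ((K + nQ + 2) * X) ^ 17 := by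
    have e1 : K * p ≤ K * X := Nat.mul_le_mul_left _ hpX
    have e2 : (K + 1) * p ≤ (K + 1) * X := Nat.mul_le_mul_left _ hpX
    have e3 : (K + nQ + 2) * X = K * X + nQ * X + 2 * X := by ring
    have e4 : (K + 1) * X = K * X + X := by ring
    have e5 : nQ ≤ nQ * X := Nat.le_mul_of_pos_right _ (by omega)
    apply z5_le <;> rw [e3] <;> omega
  have h5 : Real.log ((z5 X p L b q : ℕ) + 2) ≤
      17 * (Real.log ((K + nQ + 2 : ℕ) : ℝ) + Real.log X) := by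
    have e6 : (17 : ℝ) * (Real.log ((K + nQ + 2 : ℕ) : ℝ) + Real.log X) =
        Real.log ((((K + nQ + 2) * X) ^ 17 : ℕ) : ℝ) := by
      rw [Nat.cast_pow, Real.log_pow, Nat.cast_mul, Real.log_mul _ (by linarith)]
      · norm_num
      · have : 0 < K + nQ + 2 := by omega
        exact_mod_cast this.ne'
    rw [e6]
    apply Real.log_le_log (by positivity)
    exact_mod_cast h4
  have h6 : 0 ≤ Real.log ((K + nQ + 2 : ℕ) : ℝ) := Real.log_natCast_nonneg _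
  unfold SC
  obtain ⟨rs, hrs⟩ : ∃ rs, rs = (R : ℝ) ^ (1 / 3 : ℝ) * (Real.log R + 1) := ⟨_, rfl⟩
  rw [← hrs] at h1 h2 ⊢
  obtain ⟨D, hD⟩ : ∃ D : ℝ, D = 6 * c * (1 : ℕ) * (Real.log (120 * (1 : ℕ)) + 1) := ⟨_, rfl⟩
  rw [← hD] at h1 ⊢
  obtain ⟨G, hG⟩ : ∃ G : ℝ, G = Real.log ((K + nQ + 2 : ℕ) : ℝ) := ⟨_, rfl⟩
  rw [← hG] at h5 h6 ⊢
  nlinarith

/-! ### The limit word -/

section Limit

variable {S : Type} {τ : Dgsm S} {a : S} {w : ℕ → S}

/-- lengths of the rows -/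
def NN (τ : Dgsm S) (a : S) (l : ℕ) : ℕ := (τ.map^[l] [a]).length

/-- state after the first `p` letters -/
def stp (τ : Dgsm S) (w : ℕ → S) (p : ℕ) : τ.Q := stAfter τ τ.init (pre w p)

/-- number of letters emitted after the first `p` letters -/
def lenp (τ : Dgsm S) (w : ℕ → S) (p : ℕ) : ℕ := (τ.map (pre w p)).length

theorem NN_zero : NN τ a 0 = 1 := rfl

theorem NN_mono (hne : τ.NonErasing) (hw : τ.IsLimit a w) : StrictMono (NN τ a) := by
  obtain ⟨u, hout, hu⟩ := TH381.Dg.IsLimit.exists_out hne hw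
  apply strictMono_nat_of_lt_succ
  intro n
  unfold NN
  rw [(TH381.Dg.map_iter hout n).1, List.length_append]
  have := TH381.Dg.cb_pos hne (τ.next τ.init a) hu n
  omega

theorem pre_NN (hw : τ.IsLimit a w) (l : ℕ) : pre w (NN τ a l) = τ.map^[l] [a] :=
  (isPre_iff.1 (hw.2.2 l)).symm

theorem stp_succ (p : ℕ) : stp τ w (p + 1) = τ.next (stp τ w p) (w p) := by
  unfold stp
  rw [pre_succ, stAfter_append]
  rfl

theorem lenp_succ (p : ℕ) : lenp τ w (p + 1) = lenp τ w p + (τ.out (stp τ w p) (w p)).length := by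
  unfold lenp stp Dgsm.map
  rw [pre_succ, run_append, List.length_append]
  simp [Dgsm.run]

theorem lenp_le {K : ℕ} (hK : ∀ q x, (τ.out q x).length ≤ K) (p : ℕ) : lenp τ w p ≤ K * p := by
  induction p with
  | zero => simp [lenp, pre, Dgsm.map, Dgsm.run]
  | succ p ih =>
    rw [lenp_succ]
    have := hK (stp τ w p) (w p)
    calc lenp τ w p + (τ.out (stp τ w p) (w p)).length ≤ K * p + K := by omega
      _ = K * (p + 1) := by ring

theorem lenp_NN (hw : τ.IsLimit a w) (l : ℕ) : lenp τ w (NN τ a l) = NN τ a (l + 1) := by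
  unfold lenp
  rw [pre_NN hw]
  unfold NN
  rw [Function.iterate_succ_apply']

theorem stp_NN (hw : τ.IsLimit a w) (l : ℕ) : stp τ w (NN τ a l) = states τ a l := by
  unfold stp
  rw [pre_NN hw]
  rfl

theorem NN_lvl_le {K : ℕ} (hK : ∀ q x, (τ.out q x).length ≤ K) (hne : τ.NonErasing)
    (hw : τ.IsLimit a w) (t : ℕ) : NN τ a (lvl (NN τ a) t) ≤ (K + 1) * (t + 1) := by
  obtain ⟨-, h2⟩ := lvl_spec NN_zero (NN_mono hne hw) t
  cases hl : lvl (NN τ a) t with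
  | zero =>
    rw [NN_zero]
    nlinarith
  | succ l =>
    have h3 := h2 l (by omega)
    rw [← lenp_NN hw l]
    have h4 := lenp_le (w := w) hK (NN τ a l)
    have h5 : K * NN τ a l ≤ K * t := Nat.mul_le_mul_left _ h3
    nlinarith

end Limit

/-! ### The generating process -/

section Gen

variable {S : Type} {τ : Dgsm S} {a : S} {w : ℕ → S}

/-- the coded configuration after `t` steps -/
def zz (τ : Dgsm S) (a : S) (w : ℕ → S) (c : ℕ) (cQ : τ.Q → ℕ) (t : ℕ) : ℕ :=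
  z5 (XX c 1 (t + 1)) (t + 1) (lenp τ w (t + 1)) (NN τ a (lvl (NN τ a) t)) (cQ (stp τ w (t + 1)))

theorem step {c : ℕ} {cS : S → ℕ} {cQ : τ.Q → ℕ} {sg : ℕ → ℕ → ℕ} {nx ol : ℕ → ℕ}
    (hw : τ.IsLimit a w)
    (hsg : ∀ p, sg (XX c 1 p) p = cS (w p))
    (hnx : ∀ q x, nx (Nat.pair (cQ q) (cS x)) = cQ (τ.next q x))
    (hol : ∀ q x, ol (Nat.pair (cQ q) (cS x)) = (τ.out q x).length) (t : ℕ) :
    FF c sg nx ol (zz τ a w c cQ t) = zz τ a w c cQ (t + 1) := by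
  unfold FF
  have e1 : px (zz τ a w c cQ t) = XX c 1 (t + 1) := px_z5 _ _ _ _ _
  have e2 : pp (zz τ a w c cQ t) = t + 1 := pp_z5 _ _ _ _ _
  have e3 : pL (zz τ a w c cQ t) = lenp τ w (t + 1) := pL_z5 _ _ _ _ _
  have e4 : pb (zz τ a w c cQ t) = NN τ a (lvl (NN τ a) t) := pb_z5 _ _ _ _ _
  have e5 : pq (zz τ a w c cQ t) = cQ (stp τ w (t + 1)) := pq_z5 _ _ _ _ _
  rw [e1, e2, e3, e4, e5, hsg, hnx, hol, ← stp_succ, ← lenp_succ]
  have e6 : powT (XX c 1 (t + 1) ^ 4) (48 * (1 * cbr (t + 1 + 1)) + 24)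
      (c * (1 * cbr (t + 1 + 1))) = XX c 1 (t + 1 + 1) :=
    powT_eq _ _ _ (Nat.succ_pos _) (XX_succ c 1 (t + 1))
  have e7 : (if t + 1 = NN τ a (lvl (NN τ a) t) then lenp τ w (t + 1)
      else NN τ a (lvl (NN τ a) t)) = NN τ a (lvl (NN τ a) (t + 1)) := by
    simp only [lvl]
    by_cases h : t + 1 = NN τ a (lvl (NN τ a) t)
    · rw [if_pos h, if_pos h, ← lenp_NN hw, ← h]
    · rw [if_neg h, if_neg h]
  rw [e6, e7]
  rfl

/-- decoding of the letters -/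
def dec {Q : Type} (dQ : ℕ → Q) : ℕ → Option Q
  | 0 => none
  | i + 1 => some (dQ i)

theorem emit {nQ c : ℕ} {cQ : τ.Q → ℕ} {dQ : ℕ → τ.Q} (hw : τ.IsLimit a w)
    (hcQ : ∀ q, cQ q < nQ) (hdQ : ∀ q, dQ (cQ q) = q) (t : ℕ) :
    dec dQ (LL nQ (zz τ a w c cQ t)) = if t + 1 = NN τ a (lvl (NN τ a) t) then
      some (states τ a (lvl (NN τ a) t)) else none := by
  have e2 : pp (zz τ a w c cQ t) = t + 1 := pp_z5 _ _ _ _ _
  have e4 : pb (zz τ a w c cQ t) = NN τ a (lvl (NN τ a) t) := pb_z5 _ _ _ _ _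
  have e5 : pq (zz τ a w c cQ t) = cQ (stp τ w (t + 1)) := pq_z5 _ _ _ _ _
  unfold LL
  rw [e2, e4, e5]
  by_cases h : t + 1 = NN τ a (lvl (NN τ a) t)
  · have h7 : stp τ w (t + 1) = states τ a (lvl (NN τ a) t) := by
      have := stp_NN hw (lvl (NN τ a) t)
      rw [← h] at this
      exact this
    rw [if_pos h, if_pos h, min_eq_left (Nat.succ_le_of_lt (hcQ _))]
    show some (dQ (cQ (stp τ w (t + 1)))) = _
    rw [hdQ, h7]
  · rw [if_neg h, if_neg h]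
    rfl

end Gen

theorem conv : Pool.Agent.TH381.RM3.SConv := by
  intro hmach S _ τ a w hne hlim hin
  obtain ⟨k, m, C, hm, hC⟩ := hin
  have hQ := τ.finQ
  have : Nonempty S := ⟨a⟩
  have : Nonempty τ.Q := ⟨τ.init⟩
  obtain ⟨nS, cS, dS, hcS, hdS⟩ := exists_coding S
  obtain ⟨nQ, cQ, dQ, hcQ, hdQ⟩ := exists_coding τ.Q
  obtain ⟨K, hK⟩ := exists_bound τ
  obtain ⟨A, sg, hsg, -, hval⟩ := hmach S k m w cS nS hcS hm
  obtain ⟨c, hc1, hc⟩ : ∃ c : ℕ, 1 ≤ c ∧ 3 * ((A : ℝ) * (|C| + 1)) ≤ c := by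
    obtain ⟨c, hc⟩ := exists_nat_ge (3 * ((A : ℝ) * (|C| + 1)))
    refine ⟨c + 1, by omega, ?_⟩
    push_cast
    linarith
  have hsgv : ∀ p, sg (XX c 1 p) p = cS (w p) := by
    intro p
    refine hval (XX c 1 p) p (|C| * (((p + 1 : ℕ) : ℝ) ^ (1 / 3 : ℝ) *
      (Real.log ((p + 1 : ℕ) : ℝ) + 1))) ?_ ?_ ?_
    · have := rs_ge (R := p + 1) (by omega)
      have := abs_nonneg C
      positivity
    · apply spaceLE_mono _ (hC (p + 1) (by omega))
      have h1 := rs_ge (R := p + 1) (by omega)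
      exact mul_le_mul_of_nonneg_right (le_abs_self C) (by linarith)
    · exact logX_ge (Nat.cast_nonneg A) (abs_nonneg C) hc p
  obtain ⟨nx, hnx⟩ : ∃ nx, nx = tabf (fun i => cQ (τ.next (dQ (Nat.unpair i).1)
    (dS (Nat.unpair i).2))) ((nQ + nS) ^ 2) := ⟨_, rfl⟩
  obtain ⟨ol, hol⟩ : ∃ ol, ol = tabf (fun i => (τ.out (dQ (Nat.unpair i).1)
    (dS (Nat.unpair i).2)).length) ((nQ + nS) ^ 2) := ⟨_, rfl⟩
  have hlt : ∀ q x, Nat.pair (cQ q) (cS x) < (nQ + nS) ^ 2 := by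
    intro q x
    have h1 := hcQ q
    have h2 := hcS x
    have := pair_lt_sq (x := cQ q) (y := cS x) (Y := nQ + nS) (by omega) (by omega)
    omega
  have hnx' : ∀ q x, nx (Nat.pair (cQ q) (cS x)) = cQ (τ.next q x) := by
    intro q x
    rw [hnx]
    unfold tabf
    rw [if_pos (hlt q x)]
    simp only [Nat.unpair_pair, hdQ, hdS]
  have hol' : ∀ q x, ol (Nat.pair (cQ q) (cS x)) = (τ.out q x).length := by
    intro q x
    rw [hol]
    unfold tabf
    rw [if_pos (hlt q x)]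
    simp only [Nat.unpair_pair, hdQ, hdS]
  have hLSnx : LS (fun ρ => nx (ρ 0)) := by rw [hnx]; exact LS_tab _ _
  have hLSol : LS (fun ρ => ol (ρ 0)) := by rw [hol]; exact LS_tab _ _
  have hiter : ∀ t, (FF c sg nx ol)^[t] (zz τ a w c cQ 0) = zz τ a w c cQ t := by
    intro t
    induction t with
    | zero => rfl
    | succ t ih =>
      rw [Function.iterate_succ_apply', ih]
      exact step (cS := cS) hlim hsgv hnx' hol' t
  have hlist : ∀ T, (List.range T).filterMap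
      (fun i => dec dQ (LL nQ ((FF c sg nx ol)^[i] (zz τ a w c cQ 0)))) =
      (List.range (lvl (NN τ a) T)).map (states τ a) := by
    intro T
    apply outs
    intro t
    rw [hiter]
    exact emit hlim hcQ hdQ t
  obtain ⟨k', Mc, C', hM, hs⟩ := TH751.RM.gen τ.Q (FF c sg nx ol) (LL nQ) nQ (dec dQ)
    (zz τ a w c cQ 0) (states τ a) (fun n => SC c K nQ * rowSpace τ a n)
    (LS_FF c hsg hLSnx hLSol) (LS_LL nQ)
    (by
      intro z
      unfold LL
      split_ifs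
      · exact min_le_right _ _
      · exact Nat.zero_le _)
    (by
      intro t
      rw [hlist]
      exact map_range_isPre (states τ a) _)
    (by
      intro n
      refine ⟨NN τ a n, ?_⟩
      rw [hlist, List.length_map, List.length_range]
      have h1 := (lvl_spec NN_zero (NN_mono hne hlim) (NN τ a n)).1
      have h2 : NN τ a n < NN τ a (lvl (NN τ a) (NN τ a n)) := by omega
      exact ((NN_mono hne hlim).lt_iff_lt.1 h2).le)
    (by
      intro n hn t ht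
      rw [hlist, List.length_map, List.length_range] at ht
      rw [hiter]
      have h1 := (lvl_spec NN_zero (NN_mono hne hlim) t).1
      have h2 : NN τ a (lvl (NN τ a) t) ≤ NN τ a (n - 1) :=
        (NN_mono hne hlim).monotone (by omega)
      exact space5 hc1 (R := NN τ a (n - 1)) (by omega) (by omega) (lenp_le hK _)
        (NN_lvl_le hK hne hlim t) (hcQ _))
  refine ⟨k', Mc, C' * SC c K nQ, hM, ?_⟩
  intro n hn
  rw [mul_assoc]
  exact hs n hn

end Pool.Agent.TH412.RM3
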